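import Pool.Agent.helper57.MS.Spec

set_option autoImplicit false

open Finset

namespace Pool.Agent.helper57.MS

open Finset Pool.Agent.RRank Pool.Agent.helper26.IM

theorem SPA : SPA_stmt := by
  constructor
  · intro d A hA P hP
    obtain ⟨I, hI, hodd⟩ := hP A fun P' h => h.2
    have h1 : I.Nonempty := P.nonempty_of_mem_parts hI
    have h2 : (Iᶜ).Nonempty := by
      rw [nonempty_iff_ne_empty]
      intro h
      rw [compl_eq_empty_iff] at h
      rw [h, univ_inter] at hodd
      exact (Nat.not_odd_iff_even.2 hA) hodd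
    refine ⟨pairPartition I h1 h2, ⟨pairPartition_mem I h1 h2, I, mem_insert_self _ _, hodd⟩, ?_⟩
    intro J hJ
    by_cases hJI : J = I
    · exact ⟨I, mem_insert_self _ _, hJI.le⟩
    · refine ⟨Iᶜ, mem_insert_of_mem (mem_singleton_self _), ?_⟩
      have h3 := P.disjoint hJ hI hJI
      intro a ha
      rw [mem_compl]
      exact disjoint_left.1 h3 ha
  · ext P
    constructor
    · rintro ⟨h2, I, hI, hodd⟩
      refine ⟨h2, ?_⟩
      rw [inter_univ] at hodd
      have hsum := P.sum_card_parts
      rw [card_univ, Fintype.card_fin] at hsum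
      obtain ⟨K, L, hKL, hparts⟩ := card_eq_two.1 h2
      rw [hparts, sum_pair hKL] at hsum
      have hK : K ∈ P.parts := by rw [hparts]; exact mem_insert_self _ _
      have hL : L ∈ P.parts := by rw [hparts]; exact mem_insert_of_mem (mem_singleton_self _)
      have hK1 : 1 ≤ K.card := (P.nonempty_of_mem_parts hK).card_pos
      have hL1 : 1 ≤ L.card := (P.nonempty_of_mem_parts hL).card_pos
      have hIKL : I = K ∨ I = L := by
        rw [hparts, mem_insert, mem_singleton] at hI
        exact hI
      have h3 : K.card = 1 ∨ L.card = 1 := by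
        obtain ⟨m, hm⟩ := hodd
        rcases hIKL with h | h
        · rw [h] at hm; omega
        · rw [h] at hm; omega
      rcases h3 with h3 | h3
      · obtain ⟨α, hα⟩ := card_eq_one.1 h3
        exact ⟨α, by rw [← hα]; exact hK⟩
      · obtain ⟨α, hα⟩ := card_eq_one.1 h3
        exact ⟨α, by rw [← hα]; exact hL⟩
    · rintro ⟨h2, α, hα⟩
      refine ⟨h2, {α}, hα, ?_⟩
      rw [inter_univ, card_singleton]
      exact odd_one

end Pool.Agent.helper57.MS
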