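import Pool.Agent.helper52.HY.Spec

/-!
# One step identity and one step loss of the Green function (pure disc lemmas for the MASS lemma)

`om n = exp(2πi/n)`, `T a x = (x - a)/(1 - conj a x)`, `S b` the inverse of `T b`.
-/

set_option autoImplicit false

open Complex Metric Set Filter Topology MeasureTheory

noncomputable section

namespace MS

open HY

/-- the root of unity. -/
def om (n : ℕ) : ℂ := Complex.exp (2 * Real.pi * Complex.I / n)

theorem om_prim (n : ℕ) (hn : n ≠ 0) : IsPrimitiveRoot (om n) n := by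
  unfold om
  exact Complex.isPrimitiveRoot_exp n hn

theorem om_norm (n : ℕ) (hn : n ≠ 0) : ‖om n‖ = 1 :=
  Complex.norm_eq_one_of_pow_eq_one (om_prim n hn).pow_eq_one hn

theorem OS_den (a x : ℂ) (ha : a ∈ UD) (hx : x ∈ UD) : 1 - (starRingEnd ℂ) a * x ≠ 0 := by
  unfold UD at ha hx
  rw [mem_ball_zero_iff] at ha hx
  intro h
  have h1 : (starRingEnd ℂ) a * x = 1 := by linear_combination -h
  have h2 : ‖(starRingEnd ℂ) a * x‖ = 1 := by rw [h1, norm_one]
  rw [norm_mul, RCLike.norm_conj] at h2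
  have h3 : ‖a‖ * ‖x‖ < 1 := by
    calc ‖a‖ * ‖x‖ ≤ ‖a‖ * 1 := mul_le_mul_of_nonneg_left hx.le (norm_nonneg _)
      _ < 1 := by linarith
  linarith

/-- `‖T q (S b y)‖ = ‖T (T b q) y‖`. -/
theorem OS_mob (b q y : ℂ) (hb : b ∈ UD) (hq : q ∈ UD) (hy : y ∈ UD) : ‖T q (S b y)‖ = ‖T (T b q) y‖ := by
  have hb' := hb
  have hq' := hq
  have hy' := hy
  unfold UD at hb' hq' hy'
  rw [mem_ball_zero_iff] at hb' hq' hy'
  have hmb : -b ∈ UD := by
    unfold UD; rw [mem_ball_zero_iff, norm_neg]; exact hb'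
  have d1 : 1 + (starRingEnd ℂ) b * y ≠ 0 := by
    have := OS_den (-b) y hmb hy
    rw [map_neg, neg_mul, sub_neg_eq_add] at this
    exact this
  have d2 : 1 - (starRingEnd ℂ) b * q ≠ 0 := OS_den b q hb hq
  have d3 : 1 - b * (starRingEnd ℂ) q ≠ 0 := by
    intro h
    apply d2
    have h4 := congrArg (starRingEnd ℂ) h
    simp only [map_sub, map_mul, map_one, map_zero, Complex.conj_conj] at h4
    exact h4
  have e1 : T q (S b y) = ((y + b) - q * (1 + (starRingEnd ℂ) b * y)) /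
      ((1 + (starRingEnd ℂ) b * y) - (starRingEnd ℂ) q * (y + b)) := by
    unfold T S
    have h5 : (y + b) / (1 + (starRingEnd ℂ) b * y) - q
        = ((y + b) - q * (1 + (starRingEnd ℂ) b * y)) / (1 + (starRingEnd ℂ) b * y) := by
      rw [eq_div_iff d1, sub_mul, div_mul_cancel₀ _ d1]
    have h6 : 1 - (starRingEnd ℂ) q * ((y + b) / (1 + (starRingEnd ℂ) b * y))
        = ((1 + (starRingEnd ℂ) b * y) - (starRingEnd ℂ) q * (y + b)) / (1 + (starRingEnd ℂ) b * y) := by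
      rw [eq_div_iff d1, sub_mul, mul_assoc, div_mul_cancel₀ _ d1, one_mul]
    rw [h5, h6, div_div_div_cancel_right₀ d1]
  have e2 : T (T b q) y = ((y * (1 - (starRingEnd ℂ) b * q) - (q - b)) / (1 - (starRingEnd ℂ) b * q)) /
      (((1 - b * (starRingEnd ℂ) q) - ((starRingEnd ℂ) q - (starRingEnd ℂ) b) * y) / (1 - b * (starRingEnd ℂ) q)) := by
    unfold T
    have h5 : y - (q - b) / (1 - (starRingEnd ℂ) b * q)
        = (y * (1 - (starRingEnd ℂ) b * q) - (q - b)) / (1 - (starRingEnd ℂ) b * q) := by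
      rw [eq_div_iff d2, sub_mul, div_mul_cancel₀ _ d2]
    have h6 : 1 - (starRingEnd ℂ) ((q - b) / (1 - (starRingEnd ℂ) b * q)) * y
        = ((1 - b * (starRingEnd ℂ) q) - ((starRingEnd ℂ) q - (starRingEnd ℂ) b) * y) / (1 - b * (starRingEnd ℂ) q) := by
      simp only [map_div₀, map_sub, map_one, map_mul, Complex.conj_conj]
      rw [eq_div_iff d3, sub_mul, one_mul, mul_right_comm, div_mul_cancel₀ _ d3]
    rw [h5, h6]
  rw [e1, e2, norm_div, norm_div, norm_div, norm_div]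
  have n1 : ‖1 - (starRingEnd ℂ) b * q‖ = ‖1 - b * (starRingEnd ℂ) q‖ := by
    have : 1 - b * (starRingEnd ℂ) q = (starRingEnd ℂ) (1 - (starRingEnd ℂ) b * q) := by
      simp only [map_sub, map_mul, map_one, Complex.conj_conj]
    rw [this, RCLike.norm_conj]
  have n2 : (y + b) - q * (1 + (starRingEnd ℂ) b * y) = y * (1 - (starRingEnd ℂ) b * q) - (q - b) := by ring
  have n3 : (1 + (starRingEnd ℂ) b * y) - (starRingEnd ℂ) q * (y + b)
      = (1 - b * (starRingEnd ℂ) q) - ((starRingEnd ℂ) q - (starRingEnd ℂ) b) * y := by ring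
  rw [n2, n3, n1]
  have hne : ‖1 - b * (starRingEnd ℂ) q‖ ≠ 0 := norm_ne_zero_iff.mpr d3
  rw [div_div_div_cancel_right₀ hne]

theorem OS_range (n : ℕ) (hn : 1 ≤ n) (x y : ℂ) : x ^ n - y ^ n = ∏ i ∈ Finset.range n, (x - om n ^ i * y) := by
  have hprim := om_prim n (by omega)
  rw [hprim.pow_sub_pow_eq_prod_sub_mul x y (by omega)]
  symm
  apply Finset.prod_nbij (fun i => om n ^ i)
  · intro i _
    rw [Polynomial.mem_nthRootsFinset (by omega), ← pow_mul, mul_comm, pow_mul, hprim.pow_eq_one, one_pow]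
  · intro i hi j hj hij
    exact hprim.pow_inj (Finset.mem_range.mp hi) (Finset.mem_range.mp hj) hij
  · intro z hz
    have hz' : z ^ n = 1 := by
      have := (Polynomial.mem_nthRootsFinset (n := n) (by omega) (1 : ℂ)).mp hz
      exact this
    have : NeZero n := ⟨by omega⟩
    obtain ⟨i, hi, hzi⟩ := hprim.eq_pow_of_pow_eq_one hz'
    exact ⟨i, Finset.mem_coe.mpr (Finset.mem_range.mpr hi), hzi⟩
  · intro i _
    rfl

/-- `‖T (p^n) (x^n)‖ = ∏ ‖T (om^i p) x‖`. -/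
theorem OS_prod (n : ℕ) (hn : 1 ≤ n) (p x : ℂ) :
    ‖T (p ^ n) (x ^ n)‖ = ∏ i ∈ Finset.range n, ‖T (om n ^ i * p) x‖ := by
  have hprim := om_prim n (by omega)
  have hnorm := om_norm n (by omega)
  have h1 : x ^ n - p ^ n = ∏ i ∈ Finset.range n, (x - om n ^ i * p) := OS_range n hn x p
  have h2 : 1 - (starRingEnd ℂ) (p ^ n) * x ^ n = ∏ i ∈ Finset.range n, (1 - (starRingEnd ℂ) (om n ^ i * p) * x) := by
    have h3 := OS_range n hn 1 (p * (starRingEnd ℂ) x)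
    have h4 := congrArg (starRingEnd ℂ) h3
    rw [map_prod] at h4
    simp only [map_sub, map_pow, map_one, map_mul, Complex.conj_conj, one_pow] at h4
    rw [map_pow, ← mul_pow, h4]
    apply Finset.prod_congr rfl
    intro i _
    rw [map_mul, map_pow]
    ring
  unfold T
  rw [h1, h2, norm_div, norm_prod, norm_prod, ← Finset.prod_div_distrib]
  apply Finset.prod_congr rfl
  intro i _
  rw [norm_div]

/-- OSI: one step identity. -/
def OSI_stmt : Prop := ∀ n : ℕ, 1 ≤ n → ∀ b ∈ UD, ∀ q ∈ UD, ∀ p ∈ UD, ∀ x ∈ UD, p ^ n = T b q →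
  ‖T q (S b (x ^ n))‖ = ∏ i ∈ Finset.range n, ‖T (om n ^ i * p) x‖

theorem OSI : OSI_stmt := by
  intro n hn b hb q hq p hp x hx hpq
  have hxn : x ^ n ∈ UD := by
    unfold UD at hx ⊢
    rw [mem_ball_zero_iff] at hx ⊢
    rw [norm_pow]
    exact pow_lt_one₀ (norm_nonneg _) hx (by omega)
  rw [OS_mob b q (x ^ n) hb hq hxn, ← hpq, OS_prod n hn p x]

/-- the minimal distance of different roots of unity. -/
theorem OS_min (n : ℕ) (hn : 2 ≤ n) : ∃ c : ℝ, 0 < c ∧ ∀ i < n, ∀ j < n, i ≠ j → c ≤ ‖om n ^ i - om n ^ j‖ := by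
  classical
  have hprim := om_prim n (by omega)
  set F : Finset (ℕ × ℕ) := ((Finset.range n) ×ˢ (Finset.range n)).filter (fun q => q.1 ≠ q.2) with hF
  have hne : F.Nonempty := by
    refine ⟨(0, 1), ?_⟩
    rw [hF, Finset.mem_filter, Finset.mem_product, Finset.mem_range, Finset.mem_range]
    exact ⟨⟨by omega, by omega⟩, by simp⟩
  obtain ⟨q, hq, hmin⟩ := Finset.exists_min_image F (fun q => ‖om n ^ q.1 - om n ^ q.2‖) hne
  refine ⟨‖om n ^ q.1 - om n ^ q.2‖, ?_, ?_⟩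
  · rw [norm_pos_iff, sub_ne_zero]
    rw [hF, Finset.mem_filter, Finset.mem_product, Finset.mem_range, Finset.mem_range] at hq
    intro h
    exact hq.2 (hprim.pow_inj hq.1.1 hq.1.2 h)
  · intro i hi j hj hij
    apply hmin (i, j)
    rw [hF, Finset.mem_filter, Finset.mem_product, Finset.mem_range, Finset.mem_range]
    exact ⟨⟨hi, hj⟩, hij⟩

theorem OS_log (a x : ℂ) (ha : a ∈ UD) (hx : x ∈ UD) (d : ℝ) (hd : 0 < d) (_hd1 : d ≤ 1) (hax : d ≤ ‖x - a‖) :
    d / 2 ≤ ‖T a x‖ ∧ -Real.log ‖T a x‖ ≤ 8 / d ^ 3 * ((1 - ‖x‖) * (1 - ‖a‖)) := by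
  have hden := OS_den a x ha hx
  have ha' := ha
  have hx' := hx
  unfold UD at ha' hx'
  rw [mem_ball_zero_iff] at ha' hx'
  have hD : 0 < ‖1 - (starRingEnd ℂ) a * x‖ := norm_pos_iff.mpr hden
  have hD2 : ‖1 - (starRingEnd ℂ) a * x‖ ≤ 2 := by
    refine (norm_sub_le _ _).trans ?_
    rw [norm_one, norm_mul, RCLike.norm_conj]
    have : ‖a‖ * ‖x‖ ≤ 1 * 1 := mul_le_mul ha'.le hx'.le (norm_nonneg _) zero_le_one
    linarith
  have hid : ‖1 - (starRingEnd ℂ) a * x‖ ^ 2 - ‖x - a‖ ^ 2 = (1 - ‖a‖ ^ 2) * (1 - ‖x‖ ^ 2) := by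
    have h1 : ∀ z : ℂ, ‖z‖ ^ 2 = Complex.normSq z := fun z => (Complex.normSq_eq_norm_sq z).symm
    rw [h1, h1, h1, h1]
    simp only [Complex.normSq_apply, Complex.sub_re, Complex.sub_im, Complex.mul_re, Complex.mul_im, Complex.one_re,
      Complex.one_im, Complex.conj_re, Complex.conj_im]
    ring
  have hnn : 0 ≤ (1 - ‖a‖ ^ 2) * (1 - ‖x‖ ^ 2) := by
    apply mul_nonneg
    · nlinarith [norm_nonneg a]
    · nlinarith [norm_nonneg x]
  have hT : ‖T a x‖ = ‖x - a‖ / ‖1 - (starRingEnd ℂ) a * x‖ := by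
    unfold T; rw [norm_div]
  have hle : ‖x - a‖ ≤ ‖1 - (starRingEnd ℂ) a * x‖ := by
    apply le_of_sq_le_sq _ hD.le |>.trans (le_refl _)
    nlinarith
  have hxa : 0 < ‖x - a‖ := lt_of_lt_of_le hd hax
  have hTpos : 0 < ‖T a x‖ := by rw [hT]; positivity
  have hTlow : d / 2 ≤ ‖T a x‖ := by
    rw [hT, div_le_div_iff₀ (by norm_num) hD]
    nlinarith
  refine ⟨hTlow, ?_⟩
  have hT1 : ‖T a x‖ ≤ 1 := by
    rw [hT, div_le_one hD]
    exact hle
  have h3 : -Real.log ‖T a x‖ ≤ 1 / ‖T a x‖ - 1 := by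
    have := Real.log_le_sub_one_of_pos (x := 1 / ‖T a x‖) (by positivity)
    rw [one_div, Real.log_inv] at this
    rw [one_div]
    exact this
  have h4 : 1 - ‖T a x‖ ^ 2 = (1 - ‖a‖ ^ 2) * (1 - ‖x‖ ^ 2) / ‖1 - (starRingEnd ℂ) a * x‖ ^ 2 := by
    rw [hT, div_pow, eq_div_iff (by positivity), sub_mul, one_mul, div_mul_cancel₀ _ (by positivity)]
    exact hid
  have h5 : 1 / ‖T a x‖ - 1 ≤ (1 - ‖T a x‖ ^ 2) / ‖T a x‖ := by
    rw [sub_div, div_sub' hTpos.ne', div_sub_div_same]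
    apply div_le_div_of_nonneg_right _ hTpos.le
    nlinarith
  have h6 : (1 - ‖T a x‖ ^ 2) / ‖T a x‖ ≤ (1 - ‖T a x‖ ^ 2) / (d / 2) := by
    apply div_le_div_of_nonneg_left _ (by positivity) hTlow
    nlinarith
  have h7 : 1 - ‖T a x‖ ^ 2 ≤ (4 * ((1 - ‖x‖) * (1 - ‖a‖))) / d ^ 2 := by
    rw [h4]
    apply div_le_div₀
    · have e1 : 0 ≤ (1 - ‖x‖) * (1 - ‖a‖) := mul_nonneg (by linarith) (by linarith)
      linarith
    · have e1 : (1 - ‖a‖ ^ 2) ≤ 2 * (1 - ‖a‖) := by nlinarith [norm_nonneg a]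
      have e2 : (1 - ‖x‖ ^ 2) ≤ 2 * (1 - ‖x‖) := by nlinarith [norm_nonneg x]
      have e3 : (1 - ‖a‖ ^ 2) * (1 - ‖x‖ ^ 2) ≤ (2 * (1 - ‖a‖)) * (2 * (1 - ‖x‖)) :=
        mul_le_mul e1 e2 (by nlinarith [norm_nonneg x]) (by linarith)
      linarith
    · positivity
    · apply pow_le_pow_left₀ hd.le
      exact hax.trans hle
  calc -Real.log ‖T a x‖ ≤ (1 - ‖T a x‖ ^ 2) / (d / 2) := h3.trans (h5.trans h6)
    _ ≤ ((4 * ((1 - ‖x‖) * (1 - ‖a‖))) / d ^ 2) / (d / 2) := by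
        apply div_le_div_of_nonneg_right h7 (by positivity)
    _ = 8 / d ^ 3 * ((1 - ‖x‖) * (1 - ‖a‖)) := by
        field_simp
        ring

/-- OSL: one step loss: all but one of the points `om^i p` are far from `x`. -/
def OSL_stmt : Prop := ∀ n : ℕ, 2 ≤ n → ∃ C > (0 : ℝ), ∀ p ∈ UD, ∀ x ∈ UD, 1 / 2 ≤ ‖x‖ →
  ∃ i₀ < n, ∀ i < n, i ≠ i₀ → 1 / C ≤ ‖T (om n ^ i * p) x‖ ∧
    -Real.log ‖T (om n ^ i * p) x‖ ≤ C * ((1 - ‖x‖) * (1 - ‖p‖))

theorem OSL : OSL_stmt := by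
  intro n hn
  obtain ⟨c, hc, hmin⟩ := OS_min n hn
  have hnorm := om_norm n (by omega)
  set d : ℝ := min (c / 8) (1 / 4) with hd
  have hdpos : 0 < d := lt_min (by positivity) (by norm_num)
  have hd1 : d ≤ 1 := (min_le_right _ _).trans (by norm_num)
  refine ⟨8 / d ^ 3, by positivity, ?_⟩
  intro p hp x hx hx2
  have hp' := hp
  have hx' := hx
  unfold UD at hp' hx'
  rw [mem_ball_zero_iff] at hp' hx'
  have hne : (Finset.range n).Nonempty := ⟨0, Finset.mem_range.mpr (by omega)⟩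
  obtain ⟨i₀, hi₀, hm⟩ := Finset.exists_min_image (Finset.range n) (fun i => ‖x - om n ^ i * p‖) hne
  refine ⟨i₀, Finset.mem_range.mp hi₀, ?_⟩
  intro i hi hii
  have hpi : ‖om n ^ i * p‖ = ‖p‖ := by rw [norm_mul, norm_pow, hnorm, one_pow, one_mul]
  have hmem : om n ^ i * p ∈ UD := by
    unfold UD; rw [mem_ball_zero_iff, hpi]; exact hp'
  have hdist : d ≤ ‖x - om n ^ i * p‖ := by
    by_cases h14 : ‖p‖ < 1 / 4
    · have h1 := norm_sub_norm_le x (om n ^ i * p)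
      rw [hpi] at h1
      have h2 : d ≤ 1 / 4 := min_le_right _ _
      linarith
    · push Not at h14
      have h1 := hm i (Finset.mem_range.mpr hi)
      have h2 : ‖(om n ^ i - om n ^ i₀) * p‖ ≤ ‖x - om n ^ i₀ * p‖ + ‖x - om n ^ i * p‖ := by
        have : (om n ^ i - om n ^ i₀) * p = (x - om n ^ i₀ * p) - (x - om n ^ i * p) := by ring
        rw [this]
        exact norm_sub_le _ _
      rw [norm_mul] at h2
      have h3 := hmin i hi i₀ (Finset.mem_range.mp hi₀) hii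
      have h4 : c * (1 / 4) ≤ ‖om n ^ i - om n ^ i₀‖ * ‖p‖ :=
        mul_le_mul h3 h14 (by norm_num) (norm_nonneg _)
      have h5 : d ≤ c / 8 := min_le_left _ _
      linarith
  obtain ⟨h1, h2⟩ := OS_log (om n ^ i * p) x hmem hx d hdpos hd1 hdist
  rw [hpi] at h2
  refine ⟨?_, h2⟩
  refine le_trans ?_ h1
  rw [one_div_div]
  have hd3 : d ^ 3 ≤ d := by
    calc d ^ 3 = d ^ 2 * d := by ring
      _ ≤ 1 * d := mul_le_mul_of_nonneg_right (pow_le_one₀ hdpos.le hd1) hdpos.le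
      _ = d := one_mul d
  linarith

end MS
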